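import Pool.Agent.H37.DEN.Targets

/-!
# BDD: the degrees of the curves are bounded
-/

set_option autoImplicit false

open MvPolynomial Filter
open Pool.Agent.H18.HIT
open Pool.Agent.H8.TD
open Pool.Agent.H37.DEN

namespace Pool.Agent.H17.DEN

section germ
variable {k : Type} [Field k] {S : Type} (U : Ultrafilter S)
  (χ : S → Po 3 k →ₐ[k] LaurentSeries k)

theorem vg_pos (h : K3 k) : 0 < Vg U χ h ↔ ∀ᶠ s in (U : Filter S), 0 < vs (χ s) h :=
  Germ.coe_lt (φ := U) (f := (0 : S → ℤ)) (g := fun s => vs (χ s) h)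

theorem vg_neg (h : K3 k) : Vg U χ h < 0 ↔ ∀ᶠ s in (U : Filter S), vs (χ s) h < 0 :=
  Germ.coe_lt (φ := U) (f := fun s => vs (χ s) h) (g := (0 : S → ℤ))

theorem vg_smul (a : ℤ) (h h' : K3 k) :
    Vg U χ h = a • Vg U χ h' ↔ ∀ᶠ s in (U : Filter S), vs (χ s) h = a * vs (χ s) h' := by
  have e : a • Vg U χ h' = (((fun s => a * vs (χ s) h') : S → ℤ) : Germ (U : Filter S) ℤ) := rfl
  rw [e]
  exact Germ.coe_eq

end germ

theorem pl_ge {k : Type} [Field k] (x : LaurentSeries k) : -x.order ≤ (pl x : ℤ) := by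
  unfold pl
  exact Int.self_le_toNat _

theorem df_mono {k : Type} [Field k] {μ : ℕ} {x : LaurentSeries k} {b b' : ℤ} (h : Df μ x b)
    (hb : b' ≤ b) : Df μ x b' := fun n hn hd => h n (lt_of_lt_of_le hn hb) hd

theorem iota_div_one {k : Type} [Field k] (P : Po 3 k) : ι P / ι 1 = ι P := by
  unfold ι
  rw [map_one, div_one]

theorem iota_inj {k : Type} [Field k] {P Q : Po 3 k} (h : ι P = ι Q) : P = Q :=
  IsFractionRing.injective (Po 3 k) (K3 k) h

theorem pf_BDD (hRDG : T_RDG) (hITR : T_ITR) (hJAC : Pool.Agent.H18.HIT.T_JAC) (hSUM : T_SUM)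
    (hVAL : Pool.Agent.H37.DEN.T_VAL) (hRES : T_RES) (hKON : T_KON) (hIDX : T_IDX) (hPOL : T_POL) (hRK1 : T_RK1)
    (hSGN : T_SGN) (hDOM : T_DOM) (hXGR : T_XGR) (hOMG : T_OMG) (hCYC : T_CYC) (hCOP : T_COP)
    (hDIN : T_DIN) (hTAY : Pool.Agent.H37.DEN.T_TAY) : T_BDD := by
  intro k _ _ _ T τ e m S U C hF hG
  have he := hF.fld.two
  obtain ⟨i₀, hdom, hco⟩ := hDOM k T τ e m S U C hF
  obtain ⟨j, hj⟩ := hco i₀
  obtain ⟨hVt, hvs, hnz⟩ := hVAL k T τ e m S U C hF i₀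
  obtain ⟨u, hu⟩ := hIDX k T τ e m S U C hF i₀
  have hkon := (hKON k T τ e m S U C hF).2
  obtain ⟨hITR1, -, -, hITR4, hITR5⟩ := hITR k T τ hF.fld.map
  have hrdg := (hRDG k).1
  obtain ⟨hsum1, hsum2, -⟩ := hSUM k τ e _ _ hVt
  obtain ⟨V, hV⟩ : ∃ V : K3 k → Germ (U : Filter S) ℤ, V = Vg U fun s => (C s).ch i₀ := ⟨_, rfl⟩
  rw [← hV] at hVt hu hsum1 hsum2
  -- orders of polynomials
  have hord : ∀ P : Po 3 k, P ≠ 0 → ∀ᶠ s in (U : Filter S),
      vs ((C s).ch i₀) (ι P) = ((C s).ch i₀ P).order := by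
    intro P hP
    have h1 := hvs P 1 hP one_ne_zero
    rw [iota_div_one] at h1
    filter_upwards [h1] with s hs
    rw [hs, map_one, HahnSeries.order_one, sub_zero]
  have hXj : ∀ l : Fin 3, (X l : Po 3 k) ≠ 0 := fun l => MvPolynomial.X_ne_zero l
  have hdl1 : ∀ᶠ s in (U : Filter S), 1 ≤ dl ((C s).ch i₀) := by
    filter_upwards [hdom, hkon] with s h1 h2
    by_contra hcon
    have h3 : dl ((C s).ch i₀) = 0 := by omega
    rw [h3, mul_zero] at h1
    omega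
  have hxv : ∀ᶠ s in (U : Filter S), vs ((C s).ch i₀) (ι (X j)) = -(dl ((C s).ch i₀) : ℤ) := by
    filter_upwards [hord (X j) (hXj j), hj, hdl1] with s h1 h2 h3
    rw [h1, ← h2]
    rw [← h2] at h3
    unfold pl at h3 ⊢
    omega
  have hιX : ι (X j : Po 3 k) ≠ 0 := by
    intro h
    have h0 : ι (X j : Po 3 k) = ι 0 := by
      rw [h]
      unfold ι
      rw [map_zero]
    exact hXj j (iota_inj h0)
  have hVx : V (ι (X j)) < 0 := by
    rw [hV, vg_neg]
    filter_upwards [hxv, hdl1] with s h1 h2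
    rw [h1]
    omega
  have hrk := hRK1 k T τ e _ V u hF.fld hG hVt hu
  have hres : ∀ h, h ≠ 0 → V h = 0 → τ h = h ∨ 0 < V (τ h - h) := by
    rw [hV]
    exact hRES k T τ e m S U C hF i₀
  have hsgn : ∀ h, h ≠ 0 → 0 < V h → ∃ N : ℕ, ∀ n ≥ N, rd (τ^[n] h) < 0 := by
    rw [hV]
    exact hSGN k T τ e m S U C hF hG i₀ hdom
  have hm0 : (0 : ℝ) < m := by exact_mod_cast hF.one
  have hgrow : ∃ c : ℝ, 0 < c ∧ ∀ n : ℕ, c * (e : ℝ) ^ n ≤ (rd (τ^[n] (ι (X j))) : ℝ) := by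
    refine ⟨1 / m, by positivity, fun n => ?_⟩
    have h1 := hXGR k T τ e m S U C hF (X j) (1 / m) (hXj j) (by
      filter_upwards [hdom, hj] with s h2 h3
      have h4 : pl ((C s).ch i₀ (X j)) ≤ (C s).pol (X j) := by
        unfold Cv.pol
        exact Finset.single_le_sum (f := fun i => pl ((C s).ch i (X j)))
          (fun i _ => Nat.zero_le _) (Finset.mem_univ i₀)
      rw [h3] at h4
      have h5 : ((C s).dlt : ℝ) ≤ m * dl ((C s).ch i₀) := by exact_mod_cast h2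
      have h6 : (dl ((C s).ch i₀) : ℝ) ≤ (C s).pol (X j) := by exact_mod_cast h4
      rw [one_div, inv_mul_le_iff₀ hm0]
      nlinarith) n
    have h2 := hITR5 n (X j) 1 (hXj j) one_ne_zero
    rw [iota_div_one, map_one, MvPolynomial.totalDegree_one, Nat.cast_zero, sub_zero] at h2
    rw [h2, Int.cast_natCast]
    exact h1
  obtain ⟨A₀, hA₀, hA⟩ := hOMG k T τ e _ V (ι (X j)) hF.fld hVt hres hrk hsgn hιX hVx hgrow
  -- the value group
  have hV1 : V 1 = 0 := by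
    have h1 := hVt.mul 1 1 one_ne_zero one_ne_zero
    rw [mul_one] at h1
    exact left_eq_add.1 h1
  obtain ⟨Γ, hΓ⟩ : ∃ Γ : AddSubgroup (Germ (U : Filter S) ℤ), ∀ y, y ∈ Γ ↔ ∃ h, h ≠ 0 ∧ V h = y :=
    ⟨{ carrier := {y | ∃ h, h ≠ 0 ∧ V h = y}
       add_mem' := by
        rintro _ _ ⟨a, ha, rfl⟩ ⟨b, hb, rfl⟩
        exact ⟨a * b, mul_ne_zero ha hb, hVt.mul a b ha hb⟩
       zero_mem' := ⟨1, one_ne_zero, hV1⟩
       neg_mem' := by
        rintro _ ⟨a, ha, rfl⟩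
        refine ⟨1 / a, one_div_ne_zero ha, ?_⟩
        rw [hsum2 1 a one_ne_zero ha, hV1, zero_sub] }, fun y => Iff.rfl⟩
  obtain ⟨μ', hμΓ, hμ0, hμgen⟩ := hCYC _ Γ e A₀ (V u) (V (ι (X j))) he hA₀
    ((hΓ _).2 ⟨u, hu.ne, rfl⟩) ((hΓ _).2 ⟨_, hιX, rfl⟩) hVx.ne hu.ord (by
      intro y hy
      obtain ⟨h, hh, rfl⟩ := (hΓ _).1 hy
      exact hA h hh)
  obtain ⟨u₁, hu₁, rfl⟩ := (hΓ _).1 hμΓ
  obtain ⟨μ, hμ⟩ : ∃ μ : S → ℕ, μ = fun s => (vs ((C s).ch i₀) u₁).toNat := ⟨_, rfl⟩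
  have hμs : ∀ᶠ s in (U : Filter S), 1 ≤ μ s ∧ vs ((C s).ch i₀) u₁ = μ s := by
    rw [hV, vg_pos] at hμ0
    filter_upwards [hμ0] with s hs
    have e1 : μ s = (vs ((C s).ch i₀) u₁).toNat := by rw [hμ]
    rw [e1]
    constructor <;> omega
  have hgermμ : (((fun s => (μ s : ℤ)) : S → ℤ) : Germ (U : Filter S) ℤ) = V u₁ := by
    rw [hV]
    refine Germ.coe_eq.2 ?_
    filter_upwards [hμs] with s hs
    exact hs.2.symm
  obtain ⟨a, ha⟩ := hμgen (V u) ((hΓ _).2 ⟨u, hu.ne, rfl⟩)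
  have hcop := hCOP S U e μ a he (by
    intro i l hil
    rw [hgermμ, ← ha] at hil
    exact hu.ord i l hil)
  obtain ⟨b, hb⟩ := hμgen (V (ι (X j))) ((hΓ _).2 ⟨_, hιX, rfl⟩)
  have hvb : ∀ h, h ≠ 0 → ∃ a : ℤ, ∀ᶠ s in (U : Filter S), vs ((C s).ch i₀) h = a * μ s := by
    intro h hh
    obtain ⟨a, ha⟩ := hμgen (V h) ((hΓ _).2 ⟨h, hh, rfl⟩)
    refine ⟨a, ?_⟩
    rw [hV] at ha
    filter_upwards [(vg_smul U _ a h u₁).1 ha, hμs] with s h1 h2
    rw [h1, h2.2]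
  have hdlb : ∀ᶠ s in (U : Filter S), (dl ((C s).ch i₀) : ℤ) = -b * μ s := by
    rw [hV] at hb
    filter_upwards [(vg_smul U _ b (ι (X j)) u₁).1 hb, hμs, hxv] with s h1 h2 h3
    rw [h3, h2.2] at h1
    linarith
  obtain ⟨N₀, hN₀⟩ : ∃ N₀ : ℕ, -b = N₀ := by
    refine Int.eq_ofNat_of_zero_le ?_
    obtain ⟨s, h1, h2, h3⟩ := (hdlb.and (hμs.and hdl1)).exists
    by_contra hcon
    have h4 : (1 : ℤ) ≤ μ s := by exact_mod_cast h2.1
    have h5 : (1 : ℤ) ≤ (dl ((C s).ch i₀) : ℤ) := by exact_mod_cast h3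
    nlinarith
  rw [hN₀] at hdlb
  have hdlN : ∀ᶠ s in (U : Filter S), dl ((C s).ch i₀) = N₀ * μ s := by
    filter_upwards [hdlb] with s hs
    exact_mod_cast hs
  by_cases hsm : ∀ᶠ s in (U : Filter S), μ s ≤ 1
  · refine ⟨m * N₀, ?_⟩
    filter_upwards [hsm, hdlN, hdom] with s h1 h2 h3
    rw [h2] at h3
    refine le_trans h3 (Nat.mul_le_mul_left m ?_)
    calc N₀ * μ s ≤ N₀ * 1 := Nat.mul_le_mul_left _ h1
      _ = N₀ := mul_one _
  · exfalso
    have hbig : ∀ᶠ s in (U : Filter S), ¬ μ s ≤ 1 := Ultrafilter.eventually_not.2 hsm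
    have hdin := hDIN k T τ e m S U C hF i₀ μ u₁ hu₁
      (by filter_upwards [hμs, hcop] with s h1 h2; exact ⟨h1.1, h2⟩)
      (by filter_upwards [hμs] with s h1; exact h1.2) hvb
    obtain ⟨R, hR⟩ := hTAY k T e he
    have hjac : jac T ≠ 0 := by
      refine hJAC 3 k T ?_
      intro P Q hPQ
      have h1 : τ (ι P) = τ (ι Q) := by rw [hF.fld.map, hF.fld.map, hPQ]
      exact iota_inj (τ.injective h1)
    obtain ⟨N, hN⟩ : ∃ N : ℕ, N = N₀ + R * (N₀ + 1) + (jac T).totalDegree * m * N₀ + 1 :=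
      ⟨_, rfl⟩
    have hdf : ∀ᶠ s in (U : Filter S), ∀ l : Fin 3,
        Df (μ s) ((C s).ch i₀ (X l)) (((N : ℤ) - N₀) * μ s) := by
      rw [Filter.eventually_all]
      intro l
      have hιl : ι (X l : Po 3 k) ≠ 0 := by
        intro h
        have h0 : ι (X l : Po 3 k) = ι 0 := by
          rw [h]
          unfold ι
          rw [map_zero]
        exact hXj l (iota_inj h0)
      filter_upwards [hdin N (ι (X l)) hιl, hnz (ι (X l)) hιl, hord (X l) (hXj l), hdlN]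
        with s h1 h2 h3 h4
      have hnd : (X l : Po 3 k) * de (ι (X l)) = nu (ι (X l)) := by
        have h5 := (hrdg (ι (X l))).2.1
        have h6 : ι (de (ι (X l : Po 3 k))) ≠ 0 := by
          intro h
          have h0 : ι (de (ι (X l : Po 3 k))) = ι 0 := by
            rw [h]
            unfold ι
            rw [map_zero]
          exact (hrdg (ι (X l))).1 (iota_inj h0)
        have h7 : ι (X l : Po 3 k) * ι (de (ι (X l : Po 3 k))) = ι (nu (ι (X l : Po 3 k))) := by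
          conv_lhs => lhs; rw [h5]
          exact div_mul_cancel₀ _ h6
        apply iota_inj
        rw [← h7]
        unfold ι
        rw [map_mul]
      have hq : (C s).ch i₀ (nu (ι (X l))) / (C s).ch i₀ (de (ι (X l))) =
          (C s).ch i₀ (X l) := by
        rw [← hnd, map_mul]
        exact mul_div_cancel_right₀ _ h2.2
      rw [hq] at h1
      refine df_mono h1 ?_
      rw [h3]
      have h8 := pl_ge ((C s).ch i₀ (X l))
      have h9 : pl ((C s).ch i₀ (X l)) ≤ dl ((C s).ch i₀) :=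
        Finset.le_sup (f := fun j => pl ((C s).ch i₀ (X j))) (Finset.mem_univ l)
      rw [h4] at h9
      have h10 : (pl ((C s).ch i₀ (X l)) : ℤ) ≤ N₀ * μ s := by exact_mod_cast h9
      nlinarith
    obtain ⟨s, h1, h2, h3, h4, h5, h6, h7⟩ := (hdf.and (hbig.and (hcop.and (hdlN.and (hdom.and
      ((hF.gen (jac T) hjac).and hμs)))))).exists
    have h8 := hR m (C s) i₀ (μ s) (((N : ℤ) - N₀) * μ s) (by omega) h3 (h6 i₀) h1
    have h9 := (C s).sum (jac T) h6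
    have h10 : ((C s).ch i₀ (jac T)).order ≤ (jac T).totalDegree * (C s).dlt := by
      have k1 : ∑ i, ((C s).ch i (jac T)).order = ((C s).ch i₀ (jac T)).order +
          ∑ i ∈ Finset.univ.erase i₀, ((C s).ch i (jac T)).order :=
        (Finset.add_sum_erase _ _ (Finset.mem_univ i₀)).symm
      have k2 : -∑ i ∈ Finset.univ.erase i₀, ((C s).ch i (jac T)).order ≤
          ∑ i ∈ Finset.univ.erase i₀, (pl ((C s).ch i (jac T)) : ℤ) := by
        rw [← Finset.sum_neg_distrib]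
        exact Finset.sum_le_sum fun i _ => pl_ge _
      have k3 : ∑ i ∈ Finset.univ.erase i₀, (pl ((C s).ch i (jac T)) : ℤ) ≤
          ∑ i, (pl ((C s).ch i (jac T)) : ℤ) :=
        Finset.sum_le_sum_of_subset_of_nonneg (Finset.erase_subset _ _)
          fun i _ _ => Int.natCast_nonneg _
      have k4 : ∑ i, (pl ((C s).ch i (jac T)) : ℤ) ≤ (jac T).totalDegree * (C s).dlt := by
        unfold Cv.dlt
        push_cast
        rw [Finset.mul_sum]
        refine Finset.sum_le_sum fun i _ => ?_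
        exact_mod_cast (hPOL k T e m (C s) (by omega)).2.1 i (jac T)
      linarith
    have h11 : ((C s).dlt : ℤ) ≤ m * (N₀ * μ s) := by
      rw [h4] at h5
      exact_mod_cast h5
    have h12 : ((jac T).totalDegree : ℤ) * (C s).dlt ≤
        (jac T).totalDegree * (m * (N₀ * μ s)) :=
      mul_le_mul_of_nonneg_left h11 (Int.natCast_nonneg _)
    have h13 : (dl ((C s).ch i₀) : ℤ) = N₀ * μ s := by exact_mod_cast h4
    rw [h13] at h8
    have h14 : (1 : ℤ) ≤ μ s := by exact_mod_cast h7.1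
    have h15 : (N : ℤ) = N₀ + R * (N₀ + 1) + (jac T).totalDegree * m * N₀ + 1 := by
      rw [hN]
      push_cast
      ring
    rw [h15] at h8
    have h16 : (R : ℤ) ≤ R * μ s := by nlinarith [Int.natCast_nonneg (n := R)]
    nlinarith

end Pool.Agent.H17.DEN
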